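import Pool.Agent.H57.SWC.Jtv
import Pool.Agent.H57.SWC.Rsw
import Pool.Agent.H3.SHE.Cel
import Pool.Agent.H31.W.H80.DIC.Tree
import Pool.Agent.H33.SHV.Lvo

/-!
# Void windows with the labels of the place 2 over the place 0, from the class theorems of the swapped list

`celZ_vt`, `casV_vt`: a static thin place with a slope more than one is void. `void_of_cv`: void windows
from the record of the swapped list. `vdA_of_cas`: `Pool.SHV33.VdA` from the cases at the windows of the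
kinds `one, one, k, k₃`.
-/

set_option autoImplicit false

namespace Pool.SWC

open MeasureTheory Set Filter Topology
open Pool.Agent.H49.Ent Pool.Agent.H32.Dense Pool.STK Pool.KA Pool.KSAT Pool.K2S Pool.PB
open Pool.GEN Pool.S6C Pool.STAT Pool.CHT Pool.GRW Pool.ONE Pool.STA
open Pool.PKG hiding AePG CasW CelZ RecG VoidZ CasV
open Pool.SWP
open Pool.W.PKG (AePG CasW CelZ RecG LwD VoidZ CasV)
open Pool.TOP (TopS)
open Pool.STR (ThinAt SteepAt StaAt sta_of_pairs)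
open Pool.ASM (NAt NBt N1t M1t)
open Pool.LA91 (HerQ)

/-- **Two functions with different derivatives** are different at almost every point. -/
theorem slp_eq_ae (f u : ℝ → ℝ) : ∀ᵐ g : ℝ, f g = u g → ∀ s s' : ℝ, HasDerivAt f s g →
    HasDerivAt u s' g → s = s' := by
  filter_upwards [pt_near {x | f x = u x}] with g h1 hg s s' hf hu
  have h2 := h1 hg
  by_contra hne
  have h3 := hf.sub hu
  have hd : 0 < |s - s'| := abs_pos.2 (sub_ne_zero.2 hne)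
  have h4 := (hasDerivAt_iff_isLittleO.1 h3).def (show 0 < |s - s'| / 2 by linarith)
  obtain ⟨η, hη, h5⟩ := Metric.eventually_nhds_iff.1 h4
  obtain ⟨q₁, hq₁, h6⟩ := h2 1 (1 / 2) one_pos (by norm_num)
  obtain ⟨q, hq⟩ : ∃ q, q = min q₁ η / 4 := ⟨_, rfl⟩
  have hm : 0 < min q₁ η := lt_min hq₁ hη
  have hq0 : 0 < q := by
    rw [hq]
    linarith
  have hq1 : q < q₁ := by
    have := min_le_left q₁ η
    rw [hq]
    linarith
  have hq2 : 2 * q < η := by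
    have := min_le_right q₁ η
    rw [hq]
    linarith
  obtain ⟨x, hx, hx1, hx2⟩ := h6 q (g + q / 2) hq0 hq1 (by
    rw [add_sub_cancel_left, abs_of_pos (by linarith)]
    linarith)
  have hxg : 0 < x - g := by linarith
  have h7 := h5 (y := x) (by
    rw [Real.dist_eq, abs_of_pos hxg]
    linarith)
  have hx' : f x = u x := hx
  have hg' : f g = u g := hg
  have e1 : (f - u) x - (f - u) g - (x - g) • (s - s') = -((x - g) * (s - s')) := by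
    rw [Pi.sub_apply, Pi.sub_apply, hx', hg', smul_eq_mul]
    ring
  rw [e1, Real.norm_eq_abs, Real.norm_eq_abs, abs_neg, abs_mul, abs_of_pos hxg] at h7
  have h8 : 0 < (x - g) * |s - s'| := mul_pos hxg hd
  linarith

section

variable {ι Lm : Type} {n i : ℕ} {h : ℝ} {Sl : ℕ → ℝ} {κ : ℕ → Kg} {Q : PropG n ι}

/-- **A static thin place with a slope more than one** is void. -/
theorem celZ_vt {Z : Lm → PropW n} (H : CelZ n i h Sl κ Q Z) (hi : i < n) (hκ : κ i = .thin)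
    (hs : 1 < Sl i) : VoidZ n h Sl κ Q Z := by
  intro al hal K₀ hK₀ S₀ hS₀
  obtain ⟨d, hd⟩ : ∃ d, d = (Sl i - 1) / 8 := ⟨_, rfl⟩
  have hd0 : 0 < d := by rw [hd]; linarith
  obtain ⟨K, N, A, V, h1, h2, H⟩ := H al hal K₀ hK₀ d hd0 S₀ hS₀
  refine ⟨K, N, A, V, h1, h2, fun S₂ hS₂ => ?_⟩
  obtain ⟨lam, K', N', V', h3, h4, ε, hε, H⟩ := H S₂ hS₂
  refine ⟨lam, K', N', V', h3, h4, min ε d, lt_min hε hd0,
    fun S g₀ P θ P₂ θ₂ Eb e₂ c Pt r L T G g hG hg hd' hZ => ?_⟩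
  obtain ⟨p, M, B₀, B₁, hB, H⟩ := H S g₀ P θ P₂ θ₂ Eb e₂ c Pt r L T G g hG hg hd' hZ
  refine ⟨p, M, B₀, B₁, hB, fun k₀ hk₀ => ?_⟩
  obtain ⟨q₁, hq₁, H⟩ := H k₀ hk₀
  refine ⟨q₁, hq₁, fun q t x hq hx R => ?_⟩
  have h5 := H q t x hq hx (R.mono le_rfl (min_le_left _ _) (fun k hk => ⟨k, hk, rfl, rfl⟩)
    fun k hk => ⟨k, hk, rfl⟩)
  have hq0 := R.q0
  have hKq : 1 * q ≤ K' * q := mul_le_mul_of_nonneg_right (h1.trans h3) hq0.le
  rw [one_mul] at hKq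
  have hεd : min ε d * q ≤ d * q := mul_le_mul_of_nonneg_right (min_le_right _ _) hq0.le
  have h6 := R.kd i hi
  rw [hκ] at h6
  have h7 := h6.2 (t + q) t (by linarith) (by linarith) (by linarith)
  have h8 := (abs_le.1 (R.dT i hi t (by rw [sub_self, abs_zero]; linarith))).2
  have h9 := (abs_le.1 (R.dL i hi (t + q) (by
    rw [add_sub_cancel_left, abs_of_pos hq0]
    exact hKq))).1
  rw [sub_self, mul_zero] at h8
  rw [add_sub_cancel_left] at h9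
  have h10 : 0 < (Sl i - 1) * q := mul_pos (by linarith) hq0
  have h11 : d * q = (Sl i - 1) * q / 8 := by rw [hd]; ring
  linarith

/-- **The cases of a thin place** are void windows. -/
theorem casV_vt {W : PropW n} (H : CasW n {i} h Sl κ Q W) (hi : i < n) (hκ : κ i = .thin)
    (hs : 1 < Sl i) : CasV n h Sl κ Q W := by
  intro S P θ c Pt r L T G g hg hq hW
  obtain ⟨j, hj, Lm, Z, h1, h2⟩ := H S P θ c Pt r L T G g hg hq hW
  rw [Set.mem_singleton_iff] at hj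
  subst hj
  exact ⟨Lm, Z, celZ_vt h1 hi hκ hs, h2⟩

end

variable {n : ℕ} {hn : 2 ≤ n} {S : PCl n} {P : ℝ → ℝ → ℝ} {r : ℝ → ℝ}
  {P' : ℕ → List (Fin n) × Fin n → ℝ → ℝ → ℝ} {Λ : Finset (Fin n) → Fin n → ℝ → ℝ → ℝ}
  {PB : ℕ → List (Fin n) × Fin n → ℝ → ℝ → ℝ}

/-- **Void windows** from the record of the swapped list. -/
theorem void_of_cv {ι : Type} [Countable ι] {Q : PropG n ι} (hQ : AePG n Q) (hn3 : 2 < n - 1)
    {Cl : PCl n → Prop} (hCl : SubCl Cl) (hS : Cl S) {Y : ℝ → Prop} (hY : ∀ᵐ w : ℝ, Y w)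
    (H : PkT hn S P r P' Λ PB) (hTop : TopS n) (hF : FZX (n - 1)) (h : ℝ) {κ : ℕ → Kg}
    (Φ : (ℕ → ℝ) → Prop) (o : Od n) (P₀ : List (Fin n) × Fin n → ℝ → ℝ → ℝ) (θ₀ : ℝ)
    (L T : ℕ → ℝ → ℝ → ℝ)
    (hL : ∀ (S : PCl n) (G : Set ℝ), PkT hn S P r P' Λ PB → Cl S → IsClosed G →
      G ⊆ Gs P r P' Λ o → (∀ w ∈ G, SwA S (cc hn o.1.1) (LvL hn P P' o) 1 w) → (∀ w ∈ G, Y w) →
      LwD hn P P' o G L)
    (hcls : ∀ Sl : ℕ → ℝ, Φ Sl → CasV n h Sl κ Q (TruW n)) {X : ℝ → Prop}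
    (hrec : ∀ᵐ g : ℝ, RwH H hTop hF h o g → TwR hn P P' Λ 1 o g → X g →
      (∀ l < n, KgAt hn P P' PB o (sw 1 l) g (κ l)) →
      RecSw hn P r P' Λ PB Cl Y o P₀ θ₀ L T κ h g) :
    ∀ᵐ g : ℝ, RwH H hTop hF h o g → TwR hn P P' Λ 1 o g → X g →
      Φ (fun l => SlL hn P P' o g (sw 1 l)) →
      (∀ l < n, KgAt hn P P' PB o (sw 1 l) g (κ l)) → False := by
  filter_upwards [joint_aeW hQ hn3 hCl hS H hTop hF o P₀ θ₀ L T hY hL κ, hrec]
    with g h1 hrec R hTw hX hΦ hkg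
  have ho := R.rwd.mem
  obtain ⟨α, Q₁, c', F⟩ := H.toPk.fac hTop hF ho
  have hg0 := F.g0
  have hg1 := F.g1
  obtain ⟨S', G, HT, hC', hG, hgG, hGs, hsw, hGY, W, hgap, hder, hQg⟩ := h1 ho hTw
    fun l hl h2 => by
      have h3 := hkg l hl
      rw [h2] at h3
      exact h3
  obtain ⟨al, g₀, s', d', e', K₁, N₁, hal, hg₀, hC⟩ := HT.cl
  obtain ⟨Lm, Z, hcls, hz⟩ := hcls (fun l => SlL hn P P' o g (sw 1 l)) hΦ S' P₀ θ₀
    (fun l => cc hn o.1.1 (sw 1 l)) P r L T G g ⟨hC.ne, hg0, hg1, hG, hgG, hder⟩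
    (fun p => by
      obtain ⟨k₀, hk₀, -⟩ := hQg p
      exact ⟨k₀, hk₀⟩) trivial
  obtain ⟨P₂, θ₂, Eb, e₂, S₀, hS₀, W⟩ := hrec R hTw hX hkg S' G HT hC' hG hGs hsw hGY hgG W hgap
    al g₀ hal hg₀ ⟨s', d', e', K₁, N₁, hC⟩
  obtain ⟨K, N, A, V, hK, hAV, hc⟩ := hcls al hal (1 + 1) (by norm_num) S₀ hS₀
  obtain ⟨S₂, hS₂, W⟩ := W 1 K N A V one_pos hK hAV 1 one_pos
  obtain ⟨lam, K', N', V', hKK, hV', ε, hε, hc⟩ := hc S₂ hS₂
  obtain ⟨q₁, hq₁, W⟩ := W K' N' V' hKK hV' ε hε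
  obtain ⟨p, M, B₀, B₁, hB, hc⟩ := hc S' g₀ P₀ θ₀ P₂ θ₂ Eb e₂
    (fun l => cc hn o.1.1 (sw 1 l)) P r L T G g hG hgG hder (hz lam)
  obtain ⟨k₀, hg₀k, q₂, hq₂, hx⟩ := pts_nearH (R := 1 + 1) (by norm_num) hQg p M B₀ B₁ hB
  obtain ⟨q₃, hq₃, hc⟩ := hc k₀ hg₀k
  obtain ⟨q, hq⟩ : ∃ q, q = min q₁ (min q₂ q₃) / 2 := ⟨_, rfl⟩
  have hm : 0 < min q₁ (min q₂ q₃) := lt_min hq₁ (lt_min hq₂ hq₃)
  have hq0 : 0 < q := by rw [hq]; linarith
  have hq' : q < min q₁ (min q₂ q₃) := by rw [hq]; linarith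
  obtain ⟨t, ht1, ht2, hR⟩ := W q g hq0 (hq'.trans_le (min_le_left _ _)) (by
    rw [sub_self, abs_zero]
    linarith)
  obtain ⟨x, hx⟩ := hx q t hq0 (hq'.trans_le ((min_le_right _ _).trans (min_le_left _ _)))
    hR.near
  exact hc q t x (hq'.trans_le ((min_le_right _ _).trans (min_le_right _ _))) hx hR

/-- **The void windows with the labels** of the place 2 over the place 0, from the cases at the windows
of the swapped list. -/
theorem vdA_of_cas (hR : LSwR) {k k₃ : Kg} {Φ Φ' : (ℕ → ℝ) → Prop}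
    (hΦ : ∀ Sl, Φ Sl → Sl 0 = 1 ∧ Sl 2 = 1 ∧ 1 < Sl 1 ∧ Φ' (fun l => Sl (sw 1 l)))
    (hc : ∃ (ι : Type) (_ : Countable ι) (Q : PropG 4 ι), AePG 4 Q ∧ ∀ h : ℝ, 0 < h → h ≤ 1 →
      ∀ Sl : ℕ → ℝ, Φ' Sl → CasV 4 h Sl (kg4 .one .one k k₃) Q (TruW 4)) :
    Pool.SHV33.VdA (kg4 .one k .one k₃) Φ := by
  intro hn S P r P' Λ PB H hTop hF hZ h hh hh1 o
  obtain ⟨S', Cl, Y, P₀, θ₀, L, T, H', hCl, hS', hY, hL, hrec⟩ := hR hn hTop hF S P r P' Λ PB H h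
    hh hh1 o
  obtain ⟨ι, hι, Q, hQ, hcls⟩ := hc
  have e0 : sw 1 0 = 0 := by unfold sw; simp
  have e1 : sw 1 1 = 2 := by unfold sw; simp
  have e2 : sw 1 2 = 1 := by unfold sw; simp
  have e3 : sw 1 3 = 3 := by unfold sw; simp
  have h1 := void_of_cv (Cl := Cl) (κ := kg4 .one .one k k₃)
    (X := fun g => LvL hn P P' o 1 g g < LvL hn P P' o 2 g g ∧ SlL hn P P' o g 0 = 1 ∧
      SlL hn P P' o g 2 = 1)
    hQ (by norm_num) hCl hS' hY H' hTop hF h Φ' o P₀ θ₀ L T hL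
    (fun Sl hS => hcls h hh hh1 Sl hS) (by
      filter_upwards [hrec] with g h1 R hTw hX hkg
      exact h1 (rwH_cl H R) hTw hX.1 hX.2.1 hX.2.2 _ hkg)
  filter_upwards [h1, slp_eq_ae (fun x => LvL hn P P' o 1 x x) (fun x => LvL hn P P' o 2 x x),
    H.dia_all H.pble hTop hF] with g h1 h2 hdia R hφ hk htw
  have hg := R.rwd.mem
  have g1 := R.rwd.g1
  have d1 := (hdia o hg 1 (by norm_num)).1.hasDerivAt
  have d2 := (hdia o hg 2 (by norm_num)).1.hasDerivAt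
  obtain ⟨s0, s2, s1, hφ'⟩ := hΦ _ hφ
  have hX : LvL hn P P' o 1 g g < LvL hn P P' o 2 g g := by
    rcases (lvl_le H.toPk hTop hF hg (l := 1) (by norm_num)).lt_or_eq with h3 | h3
    · exact h3
    · have h4 := h2 h3 _ _ d1 d2
      have h5 : deriv (fun a => LvL hn P P' o 2 a a) g = 1 := s2
      have h6 : 1 < deriv (fun a => LvL hn P P' o 1 a a) g := s1
      rw [h5] at h4
      exact absurd h4 h6.ne'
  refine h1 (rwH_cl H' R) ⟨g, g1, htw⟩ ⟨hX, s0, s2⟩ hφ' ?_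
  intro l hl
  interval_cases l
  · rw [e0]
    exact hk 0 (by norm_num)
  · rw [e1]
    exact hk 2 (by norm_num)
  · rw [e2]
    exact hk 1 (by norm_num)
  · rw [e3]
    exact hk 3 (by norm_num)

/-- **The void windows with the labels**, from the cases of a thin place. -/
theorem vdA_of_part (hR : LSwR) {k₃ : Kg} {Φ Φ' : (ℕ → ℝ) → Prop}
    (hΦ : ∀ Sl, Φ Sl → Sl 0 = 1 ∧ Sl 2 = 1 ∧ 1 < Sl 1 ∧ Φ' (fun l => Sl (sw 1 l)))
    (hs : ∀ Sl, Φ' Sl → 1 < Sl 2)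
    (hc : ∃ (ι : Type) (_ : Countable ι) (Q : PropG 4 ι), AePG 4 Q ∧ HerQ Q ∧
      ∀ h : ℝ, 0 < h → h ≤ 1 → ∀ Sl : ℕ → ℝ, Φ' Sl → ∀ _ : Unit,
        CasW 4 {2} h Sl (kg4 .one .one .thin k₃) Q (TruW 4)) :
    Pool.SHV33.VdA (kg4 .one .thin .one k₃) Φ := by
  obtain ⟨ι, hι, Q, hQ, -, hc⟩ := hc
  exact vdA_of_cas hR hΦ ⟨ι, hι, Q, hQ, fun h hh hh1 Sl hS =>
    casV_vt (hc h hh hh1 Sl hS ()) (by norm_num) rfl (hs Sl hS)⟩

/-- **A static target.** -/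
theorem vdA_nbt (hR : LSwR)
    (hc : ∃ (ι : Type) (_ : Countable ι) (Q : PropG 4 ι), AePG 4 Q ∧ HerQ Q ∧
      ∀ h : ℝ, 0 < h → h ≤ 1 → ∀ Sl : ℕ → ℝ, NAt Sl → ∀ _ : Unit,
        CasW 4 {2} h Sl (kg4 .one .one .thin .sta) Q (TruW 4)) :
    Pool.SHV33.VdA (kg4 .one .thin .one .sta) NBt := by
  refine vdA_of_part hR (fun Sl h => ⟨h.1, h.2.1, h.2.2.1, ?_⟩) (fun Sl h => h.2.2.1) hc
  have e0 : sw 1 0 = 0 := by unfold sw; simp
  have e1 : sw 1 1 = 2 := by unfold sw; simp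
  have e2 : sw 1 2 = 1 := by unfold sw; simp
  have e3 : sw 1 3 = 3 := by unfold sw; simp
  refine ⟨?_, ?_, ?_, ?_⟩
  · show Sl (sw 1 0) = 1
    rw [e0]
    exact h.1
  · show Sl (sw 1 1) = 1
    rw [e1]
    exact h.2.1
  · show 1 < Sl (sw 1 2)
    rw [e2]
    exact h.2.2.1
  · show 2 ≤ Sl (sw 1 3)
    rw [e3]
    exact h.2.2.2

/-- **A target with slope one.** -/
theorem vdA_m1t (hR : LSwR)
    (hc : ∃ (ι : Type) (_ : Countable ι) (Q : PropG 4 ι), AePG 4 Q ∧ HerQ Q ∧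
      ∀ h : ℝ, 0 < h → h ≤ 1 → ∀ Sl : ℕ → ℝ, N1t Sl → ∀ _ : Unit,
        CasW 4 {2} h Sl (kg4 .one .one .thin .one) Q (TruW 4)) :
    Pool.SHV33.VdA (kg4 .one .thin .one .one) M1t := by
  refine vdA_of_part hR (fun Sl h => ⟨h.1, h.2.1, h.2.2.1, ?_⟩) (fun Sl h => h.2.2.1) hc
  have e0 : sw 1 0 = 0 := by unfold sw; simp
  have e1 : sw 1 1 = 2 := by unfold sw; simp
  have e2 : sw 1 2 = 1 := by unfold sw; simp
  have e3 : sw 1 3 = 3 := by unfold sw; simp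
  refine ⟨?_, ?_, ?_, ?_⟩
  · show Sl (sw 1 0) = 1
    rw [e0]
    exact h.1
  · show Sl (sw 1 1) = 1
    rw [e1]
    exact h.2.1
  · show 1 < Sl (sw 1 2)
    rw [e2]
    exact h.2.2.1
  · show Sl (sw 1 3) = 1
    rw [e3]
    exact h.2.2.2

/-- The numbers at two contact coordinates, of the swapped list. -/
theorem nm2_sw {R : ℝ → ℝ → Prop} {k : Kg} {Sl : ℕ → ℝ} (h : Pool.ASM.Nm2 1 2 R k Sl) :
    Pool.ASM.Nm2 2 1 R k (fun l => Sl (sw 1 l)) := by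
  have e0 : sw 1 0 = 0 := by unfold sw; simp
  have e1 : sw 1 1 = 2 := by unfold sw; simp
  have e2 : sw 1 2 = 1 := by unfold sw; simp
  have e3 : sw 1 3 = 3 := by unfold sw; simp
  have h0 := h.s0
  have h1 := h.sj
  have h2 := h.sl
  have h3 := h.s3
  have h4 := h.rel
  have h5 := h.sta
  have h6 := h.stp
  refine ⟨?_, ?_, ?_, ?_, ?_, ?_, ?_⟩ <;> simp only [e0, e1, e2, e3] <;> assumption

/-- **A thin target**: the kind `k` at the place 1, from the kind `k` at the place 2. -/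
theorem vdA_nm2 (hR : LSwR) {R : ℝ → ℝ → Prop} {k : Kg}
    (hc : ∃ (ι : Type) (_ : Countable ι) (Q : PropG 4 ι), AePG 4 Q ∧
      ∀ h : ℝ, 0 < h → h ≤ 1 → ∀ Sl : ℕ → ℝ, Pool.ASM.Nm2 2 1 R k Sl →
        CasV 4 h Sl (kg4 .one .one k .thin) Q (TruW 4)) :
    Pool.SHV33.VdA (kg4 .one k .one .thin) (Pool.ASM.Nm2 1 2 R k) :=
  vdA_of_cas hR (fun _ h => ⟨h.s0, h.sj, h.sl, nm2_sw h⟩) hc

end Pool.SWC
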